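import Pool.Agent.H46.S.H3

/-!
# The cross product of bivectors of a sheaf of rank three
-/

namespace Pool.Agent.H46.S

open Submodule Pool.Agent.H83.HN Pool.Agent.H83.HP Pool.Agent.H36.HP

section linear

variable {K : Type} [Field K] [Algebra ℂ K] {N : ℕ}

/-- the vector `∑ y_i w_i`, as a tensor of degree one -/
def chi {r : ℕ} (w : Fin r → Fin N → K) : (Fin r → K) →ₗ[K] ((Fin 1 → Fin N) → K) where
  toFun y := fun a => ∑ i, y i * w i (a 0)
  map_add' x y := by
    funext a
    simp only [Pi.add_apply, add_mul, Finset.sum_add_distrib]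
  map_smul' c x := by
    funext a
    simp only [Pi.smul_apply, smul_eq_mul, RingHom.id_apply, Finset.mul_sum, mul_assoc]

theorem wed_one' (v : Fin N → K) : wed ![v] = fun a => v (a 0) := by
  funext a
  simp [wed, Matrix.det_unique]

theorem chi_eq {r : ℕ} (w : Fin r → Fin N → K) (y : Fin r → K) :
    chi w y = wed ![∑ i, y i • w i] := by
  rw [wed_one']
  funext a
  simp only [chi, LinearMap.coe_mk, AddHom.coe_mk, Finset.sum_apply, Pi.smul_apply, smul_eq_mul]

theorem chi_injective {r : ℕ} (w : Fin r → Fin N → K) (h : LinearIndependent K w) :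
    Function.Injective (chi w) := by
  rw [← LinearMap.ker_eq_bot, LinearMap.ker_eq_bot']
  intro y hy
  have h1 : ∑ i, y i • w i = 0 := by
    funext a
    have h2 := congrFun hy (fun _ => a)
    simpa [chi, Finset.sum_apply] using h2
  funext i
  exact Fintype.linearIndependent_iff.1 h y h1 i

theorem chi_mem {r : ℕ} (w : Fin r → Fin N → K) (y : Fin r → K) :
    chi w y ∈ Ext (span K (Set.range w)) 1 := by
  rw [mem_Ext_one]
  exact ⟨_, sum_mem fun i _ => smul_mem _ _ (subset_span ⟨i, rfl⟩), chi_eq w y⟩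

/-- An injective linear map and a pull back. -/
theorem finrank_comap {V W : Type} [AddCommGroup V] [AddCommGroup W] [Module ℂ V] [Module ℂ W]
    (f : V →ₗ[ℂ] W) (hf : Function.Injective f) (S : Submodule ℂ W) :
    Module.finrank ℂ (S.comap f) = Module.finrank ℂ ↥(S ⊓ LinearMap.range f) := by
  have h := (Submodule.equivMapOfInjective f hf (S.comap f)).finrank_eq
  rw [h, Submodule.map_comap_eq, inf_comm]

end linear

variable {n : ℕ} {Lam : Type} [AddCommGroup Lam] {q : Lam → Lam → ℤ} {M : Manifold n Lam q}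
  {F : Forms M} {L : Lam}

/-- `h^0(Λ^2 E ⊗ L) ≤ 1 + h^0(E ⊗ L^(2-t))` for a sheaf `E` of rank three with determinant
`L^(-t)`. -/
theorem cross_bound (D : Multi M F L) (w : Fin 3 → Fin (2 * n) → D.K)
    (hw : LinearIndependent D.K w) (t : ℤ) (ht : D.cl 3 (wed w) = -(t • L))
    (hone : ∀ P ∈ D.mv 2 1, P ∈ ExtC (span D.K (Set.range w)) 2 → P ≠ 0 →
      Module.finrank ℂ ↥(D.mv 2 1 ⊓ LineC P) = 1) :
    Module.finrank ℂ ↥(D.mv 2 1 ⊓ ExtC (span D.K (Set.range w)) 2) ≤
      1 + Module.finrank ℂ ↥(D.mv 1 (2 - t) ⊓ ExtC (span D.K (Set.range w)) 1) := by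
  classical
  haveI := D.mv_fin 2 1
  haveI := D.mv_fin 1 (2 - t)
  by_cases hbot : D.mv 2 1 ⊓ ExtC (span D.K (Set.range w)) 2 = ⊥
  · rw [hbot, finrank_bot]
    omega
  obtain ⟨P1, ⟨hP1, hP1E⟩, hP10⟩ := (Submodule.ne_bot_iff _).1 hbot
  have hline := hone P1 hP1 hP1E hP10
  obtain ⟨f, hf0, hf⟩ := D.cross w hw t ht
  let ps : (Fin 3 → D.K) →ₗ[ℂ] ((Fin 2 → Fin (2 * n)) → D.K) := (psi w).restrictScalars ℂ
  have hps : Function.Injective ps := psi_injective w hw
  have hrange : LinearMap.range ps = ExtC (span D.K (Set.range w)) 2 := by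
    ext P
    change (∃ x, psi w x = P) ↔ P ∈ Ext (span D.K (Set.range w)) 2
    rw [← range_psi]
    rfl
  let S2 : Submodule ℂ (Fin 3 → D.K) := (D.mv 2 1).comap ps
  have e2 : Module.finrank ℂ S2 =
      Module.finrank ℂ ↥(D.mv 2 1 ⊓ ExtC (span D.K (Set.range w)) 2) := by
    rw [← hrange]
    exact finrank_comap ps hps _
  let ch : (Fin 3 → D.K) →ₗ[ℂ] ((Fin 1 → Fin (2 * n)) → D.K) := (chi w).restrictScalars ℂ
  have hch : Function.Injective ch := chi_injective w hw
  let S1 : Submodule ℂ (Fin 3 → D.K) := (D.mv 1 (2 - t)).comap ch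
  have hS1 : S1.map ch ≤ D.mv 1 (2 - t) ⊓ ExtC (span D.K (Set.range w)) 1 := by
    rintro _ ⟨y, hy, rfl⟩
    exact ⟨hy, chi_mem w y⟩
  have e1 : Module.finrank ℂ S1 ≤
      Module.finrank ℂ ↥(D.mv 1 (2 - t) ⊓ ExtC (span D.K (Set.range w)) 1) := by
    rw [(Submodule.equivMapOfInjective ch hch S1).finrank_eq]
    exact Submodule.finrank_mono hS1
  haveI : Module.Finite ℂ S1 := by
    haveI : Module.Finite ℂ (S1.map ch) :=
      Submodule.finiteDimensional_of_le (S₂ := D.mv 1 (2 - t)) (hS1.trans inf_le_left)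
    exact Module.Finite.equiv (Submodule.equivMapOfInjective ch hch S1).symm
  haveI : Module.Finite ℂ S2 := by
    haveI : Module.Finite ℂ (S2.map ps) :=
      Submodule.finiteDimensional_of_le (S₂ := D.mv 2 1) (Submodule.map_comap_le _ _)
    exact Module.Finite.equiv (Submodule.equivMapOfInjective ps hps S2).symm
  -- the vector `x1`
  obtain ⟨x1, hx1⟩ : ∃ x1, psi w x1 = P1 := by
    have : P1 ∈ LinearMap.range ps := by rw [hrange]; exact hP1E
    exact this
  have hx10 : x1 ≠ 0 := by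
    rintro rfl
    exact hP10 (by rw [← hx1, map_zero])
  -- the cross product with `x1`
  let cr : (Fin 3 → D.K) →ₗ[ℂ] (Fin 3 → D.K) :=
    (f • (crossProduct x1 : (Fin 3 → D.K) →ₗ[D.K] (Fin 3 → D.K))).restrictScalars ℂ
  have hcr : ∀ x ∈ S2, cr x ∈ S1 := by
    intro x hx
    have h1 := hf 1 1 x1 x (by
      change psi w x1 ∈ D.mv 2 1
      rw [hx1]
      exact hP1) hx
    change chi w (f • crossProduct x1 x) ∈ D.mv 1 (2 - t)
    rw [chi_eq]
    have e : (∑ i, (f • crossProduct x1 x) i • w i) = f • ∑ i, crossProduct x1 x i • w i := by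
      rw [Finset.smul_sum]
      refine Finset.sum_congr rfl fun i _ => ?_
      rw [Pi.smul_apply, smul_eq_mul, mul_smul]
    rw [e]
    exact h1
  let Φ : S2 →ₗ[ℂ] S1 := cr.restrict hcr
  have hker : Module.finrank ℂ (LinearMap.ker Φ) ≤ 1 := by
    have hle : (LinearMap.ker Φ).map (ps ∘ₗ S2.subtype) ≤ D.mv 2 1 ⊓ LineC P1 := by
      rintro _ ⟨x, hx, rfl⟩
      refine ⟨x.2, ?_⟩
      have hx0 : f • crossProduct x1 x.1 = 0 := by
        have := congrArg Subtype.val (LinearMap.mem_ker.1 hx)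
        exact this
      have hx1' : crossProduct x1 x.1 = 0 := (smul_eq_zero.1 hx0).resolve_left hf0
      have hdep : ¬ LinearIndependent D.K ![x1, x.1] := by
        intro h
        exact crossProduct_ne_zero_iff_linearIndependent.2 h hx1'
      have : ∃ c : D.K, c • x1 = x.1 := by
        by_contra hc
        push Not at hc
        exact hdep ((LinearIndependent.pair_iff' hx10).2 hc)
      obtain ⟨c, hc⟩ := this
      change psi w x.1 ∈ span D.K {P1}
      rw [← hc, map_smul, hx1]
      exact smul_mem _ _ (mem_span_singleton_self _)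
    have hinj : Function.Injective (ps ∘ₗ S2.subtype) := hps.comp Subtype.val_injective
    rw [(Submodule.equivMapOfInjective _ hinj (LinearMap.ker Φ)).finrank_eq, ← hline]
    haveI : Module.Finite ℂ ↥(D.mv 2 1 ⊓ LineC P1) :=
      Submodule.finiteDimensional_of_le (S₂ := D.mv 2 1) inf_le_left
    exact Submodule.finrank_mono hle
  have hrk := LinearMap.finrank_range_add_finrank_ker Φ
  have hrg : Module.finrank ℂ (LinearMap.range Φ) ≤ Module.finrank ℂ S1 :=
    Submodule.finrank_le _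
  omega

end Pool.Agent.H46.S
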