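import Pool.Agent.H32.S.Ext

/-!
# A basis of a subspace
-/

namespace Pool.Agent.H46.S

open Submodule

variable {K : Type} [Field K] {N : ℕ}

/-- a basis of a subspace -/
theorem exists_basis (E : Submodule K (Fin N → K)) :
    ∃ w : Fin (Module.finrank K E) → Fin N → K, LinearIndependent K w ∧
      span K (Set.range w) = E := by
  let b := Module.finBasis K E
  refine ⟨fun i => (b i : Fin N → K), ?_, ?_⟩
  · exact b.linearIndependent.map' E.subtype (Submodule.ker_subtype E)
  · have h1 : (Set.range fun i => (b i : Fin N → K)) = E.subtype '' Set.range b := by
      rw [← Set.range_comp]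
      rfl
    rw [h1, Submodule.span_image, b.span_eq, Submodule.map_top, Submodule.range_subtype]

end Pool.Agent.H46.S
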