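import Pool.Agent.H46.S.Class

/-!
# A sixfold class of Iitaka dimension two: the contradiction on the fibre
-/

namespace Pool.Agent.H46.S

theorem Fib.false (f : Fib) : False := by
  have hEeff := f.nef_eff f.l f.l_nef f.E f.E_eff
  have hC := f.nef_eff f.l f.l_nef _ f.C_eff
  rw [map_sub, map_smul, f.l_sq, smul_zero, zero_sub] at hC
  have hlE : f.b f.l f.E = 0 := by linarith
  have heq := congrArg (f.b f.l) f.eq
  rw [map_add, map_add, map_smul, f.l_sq, smul_zero, hlE, zero_add] at heq
  have hlP := f.nef_nef f.l f.l_nef f.P f.P_nef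
  have hlG := f.nef_eff f.l f.l_nef f.G f.G_eff
  have hlP0 : f.b f.l f.P = 0 := by linarith
  have hPP := f.nef_nef f.P f.P_nef f.P f.P_nef
  have hHl0 := f.nef_nef f.H f.H_nef f.l f.l_nef
  have hHl : 0 < f.b f.H f.l := by
    rcases hHl0.lt_or_eq with h | h
    · exact h
    · have := f.hodge f.l h.symm f.l_ne
      rw [f.l_sq] at this
      exact absurd this (lt_irrefl _)
  obtain ⟨t, ht⟩ : ∃ t : ℝ, t = f.b f.H f.P / f.b f.H f.l := ⟨_, rfl⟩
  have hx0 : f.b f.H (f.P - t • f.l) = 0 := by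
    rw [map_sub, map_smul, smul_eq_mul, ht, div_mul_cancel₀ _ hHl.ne', sub_self]
  have hx : f.P - t • f.l = 0 := by
    by_contra hne
    have h1 := f.hodge _ hx0 hne
    have h2 : f.b (f.P - t • f.l) (f.P - t • f.l) = f.b f.P f.P := by
      have hPl : f.b f.P f.l = 0 := by rw [f.b_symm]; exact hlP0
      simp only [map_sub, map_smul, LinearMap.sub_apply, LinearMap.smul_apply, smul_eq_mul, hlP0,
        hPl, f.l_sq]
      ring
    rw [h2] at h1
    linarith
  have hP : f.P = t • f.l := sub_eq_zero.1 hx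
  have hneg := f.nef_eff f.H f.H_nef _ f.neg
  rw [map_sub, map_smul, smul_eq_mul] at hneg
  have ht0 : 0 < t := by
    rw [ht]
    refine div_pos ?_ hHl
    have := mul_pos f.c_pos hHl
    linarith
  obtain ⟨k, hk⟩ := f.gm t ht0 hP
  have := f.iitaka k
  omega

end Pool.Agent.H46.S
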