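import Pool.Agent.H46.S.ExtB

/-!
# Sections of a primitive isotropic nef class on the special member
-/

namespace Pool.Agent.H46.S

open Submodule Pool.Agent.H83.HN Pool.Agent.H83.HP Pool.Agent.H36.HP

variable {n : ℕ} {Lam : Type} [AddCommGroup Lam] {q : Lam → Lam → ℤ} {M : Manifold n Lam q}
  {F : Forms M} {L : Lam}

/-- THE SUPPORT `E`: the smallest subspace of `KT` containing the parallel multivector fields. -/
theorem exists_support (D : Multi M F L) (KT : Submodule D.K (Fin (2 * n) → D.K)) :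
    ∃ E ≤ KT, (∀ p k : ℕ, 0 < p → 0 < k → D.mv p k ⊓ ExtC KT p = D.mv p k ⊓ ExtC E p) ∧
      ∀ W' < E, ∃ p k : ℕ, 0 < p ∧ ∃ P ∈ D.mv p k, P ∈ ExtC E p ∧ P ∉ ExtC W' p := by
  classical
  let c : Submodule D.K (Fin (2 * n) → D.K) → Prop := fun W => W ≤ KT ∧
    ∀ p k : ℕ, 0 < p → 0 < k → D.mv p k ⊓ ExtC KT p ≤ ExtC W p
  have hc : ∃ d : ℕ, ∃ W, c W ∧ Module.finrank D.K W = d :=
    ⟨_, KT, ⟨le_rfl, fun p k _ _ => inf_le_right⟩, rfl⟩
  obtain ⟨E, ⟨hE, hE2⟩, hd⟩ := Nat.find_spec hc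
  refine ⟨E, hE, fun p k hp hk => le_antisymm (le_inf inf_le_left (hE2 p k hp hk))
    (inf_le_inf_left _ (ExtC_mono hE p)), fun W' hW' => ?_⟩
  by_contra hcon
  have hcW : c W' := by
    refine ⟨hW'.le.trans hE, fun p k hp hk P hP => ?_⟩
    by_contra hP'
    exact hcon ⟨p, k, hp, P, hP.1, hE2 p k hp hk hP, hP'⟩
  have h1 : Module.finrank D.K W' < Module.finrank D.K E := Submodule.finrank_lt_finrank_of_lt hW'
  exact Nat.find_min hc (m := Module.finrank D.K W') (by rw [← hd]; exact h1) ⟨W', hcW, rfl⟩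

section Slopes

variable (q_symm : ∀ x y, q x y = q y x) (q_add : ∀ x y z, q (x + y) z = q x z + q y z)

include q_symm q_add in
/-- the slope with respect to `L` is the limit of slopes with respect to ample classes -/
theorem q_nonpos {x : Lam} (hL : L ∈ M.Nef) (hx : ∀ a ∈ M.Ample, q x a ≤ 0) : q x L ≤ 0 := by
  obtain ⟨a, ha⟩ := M.exists_ample
  have hk : ∀ k : ℕ, a + k • L ∈ M.Ample := by
    intro k
    induction k with
    | zero => simpa using ha
    | succ k ih =>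
      rw [succ_nsmul, ← add_assoc]
      exact M.ample_add _ ih _ hL
  have hk' : ∀ k : ℕ, q x a + k * q x L ≤ 0 := by
    intro k
    have h1 := hx _ (hk k)
    rw [q_symm, q_add, q_nsmul q_add, q_symm a, q_symm L] at h1
    exact h1
  by_contra hc
  push Not at hc
  have h1 := hk' ((q x a).natAbs + 1)
  push_cast at h1
  have h2 : |q x a| + 1 ≤ (|q x a| + 1) * q x L := le_mul_of_one_le_right (by positivity) hc
  have h3 := neg_abs_le (q x a)
  omega

include q_symm q_add in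
/-- The class of the line generated by a section of `Λ^p T ⊗ L^k`. -/
theorem cl_eq (D : Multi M F L) (hL : L ∈ M.Nef) (hLL : q L L = 0) (hL0 : L ≠ 0)
    (horth : ∀ P ∈ M.Prime, q P L = 0 → ∃ c : ℤ, P = c • L) {p : ℕ} {k : ℤ}
    {P : (Fin p → Fin (2 * n)) → D.K} (hP : P ∈ D.mv p k) (hP0 : P ≠ 0) :
    ∃ c : ℕ, D.cl p P = ((c : ℤ) - k) • L ∧ (c : ℤ) ≤ k := by
  have hPt := D.mv_ext p k hP
  have hLNS := M.nef_NS hL
  haveI := D.mv_fin p k
  have h1 : Module.finrank ℂ ↥(D.mv p k ⊓ LineC P) ≠ 0 := by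
    intro h0
    haveI : Module.Finite ℂ ↥(D.mv p k ⊓ LineC P) :=
      Submodule.finiteDimensional_of_le (inf_le_left : D.mv p k ⊓ LineC P ≤ D.mv p k)
    have h2 : D.mv p k ⊓ LineC P = ⊥ := Submodule.finrank_eq_zero.1 h0
    have h3 : P ∈ D.mv p k ⊓ LineC P := ⟨hP, Submodule.mem_span_singleton_self P⟩
    rw [h2] at h3
    exact hP0 ((Submodule.mem_bot ℂ).1 h3)
  rw [D.line p P hPt hP0 k] at h1
  have h2 : M.Sec (k • L + D.cl p P) ≠ ⊥ := by
    intro h
    rw [h] at h1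
    exact h1 (finrank_bot ℂ _)
  have hx := M.effective _ (add_mem (M.NS.zsmul_mem hLNS k) (D.cl_NS p P)) h2
  obtain ⟨h3, h4⟩ := closure_orth q_symm q_add M hL hL0 horth _ hx
  have h5 : q (k • L + D.cl p P) L = q (D.cl p P) L := by
    rw [q_add, q_zsmul q_add, hLL, mul_zero, zero_add]
  rw [h5] at h3 h4
  have h6 : q (D.cl p P) L ≤ 0 := q_nonpos q_symm q_add hL (D.polystable p P hPt hP0)
  obtain ⟨c, hc⟩ := h4 (le_antisymm h6 h3)
  have h7 : D.cl p P = ((c : ℤ) - k) • L := by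
    rw [sub_smul, natCast_zsmul, ← hc]
    abel
  refine ⟨c, h7, ?_⟩
  obtain ⟨a, ha⟩ := M.exists_ample
  have h8 := D.polystable p P hPt hP0 a ha
  have h9 := M.ample_nef_q a ha L hL hL0
  rw [h7, q_zsmul q_add, q_symm L a] at h8
  by_contra h10
  have : 0 < ((c : ℤ) - k) * q a L := mul_pos (by omega) h9
  omega

include q_symm q_add in
/-- Sections of `Λ^p T ⊗ L^k`, `k ≤ 0`, with values in a proper subspace. -/
theorem mv_nonpos (D : Multi M F L) (hL : L ∈ M.Nef) (hLL : q L L = 0) (hL0 : L ≠ 0)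
    (horth : ∀ P ∈ M.Prime, q P L = 0 → ∃ c : ℤ, P = c • L)
    {E : Submodule D.K (Fin (2 * n) → D.K)} (hE : E ≠ ⊤) {p : ℕ} (hp : 0 < p) {k : ℤ} (hk : k ≤ 0)
    {P : (Fin p → Fin (2 * n)) → D.K} (hP : P ∈ D.mv p k) (hPE : P ∈ ExtC E p) : P = 0 := by
  by_contra hP0
  obtain ⟨c, -, hck⟩ := cl_eq q_symm q_add D hL hLL hL0 horth hP hP0
  have hk0 : k = 0 := by omega
  subst hk0
  exact hE (D.bochner p hp P hP hP0 E hPE)

include q_symm q_add in
/-- A section of `Λ^p E ⊗ L` generates a saturated line, so its multiples in degree one are the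
multiples by constants. -/
theorem line_one (D : Multi M F L) (hL : L ∈ M.Nef) (hLL : q L L = 0) (hL0 : L ≠ 0)
    (horth : ∀ P ∈ M.Prime, q P L = 0 → ∃ c : ℤ, P = c • L)
    {E : Submodule D.K (Fin (2 * n) → D.K)} (hE : E ≠ ⊤) {p : ℕ} (hp : 0 < p)
    {P : (Fin p → Fin (2 * n)) → D.K} (hP : P ∈ D.mv p 1) (hPE : P ∈ ExtC E p) (hP0 : P ≠ 0) :
    Module.finrank ℂ ↥(D.mv p 1 ⊓ LineC P) = 1 := by
  obtain ⟨c, hc, hck⟩ := cl_eq q_symm q_add D hL hLL hL0 horth hP hP0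
  have hPt := D.mv_ext p 1 hP
  have hc0 : c = 0 := by
    by_contra hc0
    have hc1 : c = 1 := by omega
    subst hc1
    have h0 : D.cl p P = 0 := by rw [hc]; simp
    have h1 := D.line p P hPt hP0 0
    rw [h0, zero_smul, add_zero, M.sec_zero] at h1
    have h2 : D.mv p 0 ⊓ LineC P ≠ ⊥ := by
      intro h
      rw [h, finrank_bot] at h1
      omega
    obtain ⟨Q, hQ, hQ0⟩ := (Submodule.ne_bot_iff _).1 h2
    have hQE : Q ∈ ExtC E p := by
      obtain ⟨f, hf⟩ := Submodule.mem_span_singleton.1 hQ.2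
      change Q ∈ Ext E p
      rw [← hf]
      exact (Ext E p).smul_mem f hPE
    exact hE (D.bochner p hp Q hQ.1 hQ0 E hQE)
  subst hc0
  rw [D.line p P hPt hP0 1, hc]
  have : (1 : ℤ) • L + (((0 : ℕ) : ℤ) - 1) • L = 0 := by
    rw [← add_smul]; simp
  rw [this, M.sec_zero]

end Slopes

end Pool.Agent.H46.S
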