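import Pool.Agent.H46.S.Sect
import Pool.Agent.H46.S.Fiba
import Pool.Agent.H41.S.Spec
import Pool.Agent.H46.P.Main
import Pool.Agent.H67.S.Alg
import Pool.Agent.H83.HP.ParaLel

/-!
# Fourfolds and sixfolds
-/

namespace Pool.Agent.H46.S

open Submodule Pool.Agent.H83.HN Pool.Agent.H83.HP Pool.Agent.H36.HP Pool.Agent.H41.S

variable {n : ℕ} {Lam : Type} [AddCommGroup Lam]

/-- A special member: `L` nef, Lelong numbers zero, no walls orthogonal to `L`. -/
structure Special (C : SClass n Lam) (Y : C.Mem) (L : Lam) : Prop where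
  nef : L ∈ (C.M Y).Nef
  prime : ∀ D ∈ (C.M Y).Prime, C.q D L = 0 → ∃ a b : ℕ, 0 < a ∧ 0 < b ∧ a • D = b • L
  horo : ∀ x ∈ (C.M Y).NS, C.q x L = 0 → (∀ a ∈ (C.M Y).Ample, 0 ≤ C.q x a) →
    ∃ a b : ℤ, a ≠ 0 ∧ a • x = b • L
  lel : ∀ y, (C.forms Y).lel L y = 0

/-- `L` is primitive. -/
def Prim (L : Lam) : Prop := ∀ x : Lam, ∀ a b : ℤ, a ≠ 0 → a • x = b • L → ∃ c : ℤ, x = c • L

/-- The conclusion of SPEC for one member. -/
def Spec (C : SClass n Lam) (Y : C.Mem) (L : Lam) : Prop :=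
  (∀ x, ∀ a : ℕ, 0 < a → a • x ∈ (C.M Y).NS → x ∈ (C.M Y).NS) ∧
      L ∈ (C.M Y).Nef ∧
      (∀ D ∈ (C.M Y).Prime, C.q D L = 0 → ∃ a b : ℕ, 0 < a ∧ 0 < b ∧ a • D = b • L) ∧
      (∀ x ∈ (C.M Y).NS, C.q x L = 0 → (∀ a ∈ (C.M Y).Ample, 0 ≤ C.q x a) →
        ∃ a b : ℤ, a ≠ 0 ∧ a • x = b • L) ∧
      ∃ A ∈ (C.M Y).VeryAmple, Nonempty (Para (C.M Y) L A 1)

theorem Spec.special {C : SClass n Lam} {Y : C.Mem} {L : Lam} (S : Spec C Y L) (hL0 : L ≠ 0)
    (hLL : C.q L L = 0) : Special C Y L := by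
  obtain ⟨-, hnef, hprime, hhoro, A, hA, ⟨π⟩⟩ := S
  have hA' := (C.M Y).va_ample hA
  have hLA : 0 < C.q L A := by
    rw [C.q_symm]
    exact (C.M Y).ample_nef_q A hA' L hnef hL0
  exact ⟨hnef, hprime, hhoro,
    (C.forms Y).lel_zero_of_para C.q_symm π le_rfl hA' hnef hLL hLA⟩

/-- A member special for `L` is special for the primitive class. -/
theorem Spec.special_prim {C : SClass n Lam} {Y : C.Mem} {L L0 : Lam} (S : Spec C Y L) {d : ℕ}
    (hd : 0 < d) (hLd : L = d • L0) (hL0 : L0 ≠ 0) (hLL : C.q L0 L0 = 0) : Special C Y L0 := by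
  obtain ⟨hsat, hnef, hprime, hhoro, A, hA, ⟨π⟩⟩ := S
  have hA' := (C.M Y).va_ample hA
  have hnef0 : L0 ∈ (C.M Y).Nef := by
    refine nef_of_nsmul (C.M Y) (hsat L0 d hd ?_) hd ?_
    · rw [← hLd]
      exact (C.M Y).nef_NS hnef
    · rw [← hLd]
      exact hnef
  have hx : ∀ x, C.q x L = d * C.q x L0 := by
    intro x
    rw [hLd, C.q_symm, q_nsmul C.q_add, C.q_symm]
  refine ⟨hnef0, fun D hD hDL => ?_, fun x hxNS hxL ha => ?_,
    lel_zero_of_para C.q_symm C.q_add (C.forms Y) Nat.one_pos π hA' hnef0 hL0 hd hLd hLL⟩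
  · obtain ⟨a, b, ha, hb, hab⟩ := hprime D hD (by rw [hx, hDL, mul_zero])
    exact ⟨a, b * d, ha, Nat.mul_pos hb hd, by rw [hab, hLd, smul_smul]⟩
  · obtain ⟨a, b, ha0, hab⟩ := hhoro x hxNS (by rw [hx, hxL, mul_zero]) ha
    exact ⟨a, b * d, ha0, by rw [hab, hLd, mul_smul, natCast_zsmul]⟩

theorem Special.orth {C : SClass n Lam} {Y : C.Mem} {L : Lam} (S : Special C Y L)
    (hp : Prim L) : ∀ P ∈ (C.M Y).Prime, C.q P L = 0 → ∃ c : ℤ, P = c • L := by
  intro P hP hPL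
  obtain ⟨a, b, ha, -, hab⟩ := S.prime P hP hPL
  exact hp P a b (by exact_mod_cast ha.ne') (by rw [natCast_zsmul, natCast_zsmul]; exact hab)

/-- `n ≤ h^0(L)` on a special member, for `L` primitive. -/
theorem Special.n_le {C : SClass n Lam} {Y : C.Mem} {L : Lam} (S : Special C Y L) (hL0 : L ≠ 0)
    (hLL : C.q L L = 0) (hp : Prim L) (hn : n = 2 ∨ n = 3) :
    n ≤ Module.finrank ℂ ((C.M Y).Sec L) := by
  refine n_le_h0 C.q_symm C.q_add (C.coh Y L S.nef hLL hL0) S.nef hLL hL0 (S.orth hp) ?_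
    S.lel hn
  intro x hx hxL ha
  obtain ⟨a, b, ha0, hab⟩ := S.horo x hx hxL ha
  exact hp x a b ha0 hab

/-- the Frobenius-like substitution keeps homogeneous polynomials -/
theorem homog_expand {G : MvPolynomial (Fin 3) ℂ} {e : ℕ} (hG : G.IsHomogeneous e) {d : ℕ}
    (hd : 0 < d) : (MvPolynomial.expand d G).IsHomogeneous (d * e) := by
  classical
  intro m hm
  have h1 : m ∈ (MvPolynomial.expand d G).support := MvPolynomial.mem_support_iff.2 hm
  obtain ⟨m', hm', rfl⟩ := Finset.mem_image.1 (MvPolynomial.support_expand_subset (p := d) G h1)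
  have h2 := hG (MvPolynomial.mem_support_iff.1 hm')
  rw [map_nsmul, h2, smul_eq_mul]

/-- On a special sixfold the multiples of a primitive class are semiample. -/
theorem Special.semi {C : SClass 3 Lam} {Y : C.Mem} {L : Lam} (S : Special C Y L) (hL0 : L ≠ 0)
    (hLL : C.q L L = 0) (hp : Prim L) {d : ℕ} (hd : 0 < d)
    (Sd : Special C Y (d • L)) : d • L ∈ (C.M Y).Semiample := by
  have h3 := S.n_le hL0 hLL hp (Or.inr rfl)
  have := (C.M Y).sec_fin L
  -- three independent sections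
  obtain ⟨s, hs, hli⟩ : ∃ s : Fin 3 → (C.M Y).P → ℂ, (∀ i, s i ∈ (C.M Y).Sec L) ∧
      LinearIndependent ℂ s := by
    let b := Module.finBasis ℂ ((C.M Y).Sec L)
    refine ⟨fun i => (b (Fin.castLE h3 i) : (C.M Y).P → ℂ), fun i => (b _).2, ?_⟩
    have h1 : LinearIndependent ℂ fun i => (b i : (C.M Y).P → ℂ) :=
      b.linearIndependent.map' ((C.M Y).Sec L).subtype (Submodule.ker_subtype _)
    exact h1.comp _ (Fin.castLE_injective h3)
  have hLNS := (C.M Y).nef_NS S.nef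
  -- `L` is not a sum of two classes of effective divisors
  have hind : ∀ u ∈ AddSubmonoid.closure (C.M Y).Prime, ∀ v ∈ AddSubmonoid.closure (C.M Y).Prime,
      u + v = L → u = 0 ∨ v = 0 := by
    intro u hu v hv huv
    obtain ⟨h1, h2⟩ := closure_orth C.q_symm C.q_add (C.M Y) S.nef hL0 (S.orth hp) u hu
    obtain ⟨h4, h5⟩ := closure_orth C.q_symm C.q_add (C.M Y) S.nef hL0 (S.orth hp) v hv
    have h6 : C.q u L + C.q v L = 0 := by rw [← C.q_add, huv, hLL]
    obtain ⟨c, hc⟩ := h2 (by omega)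
    obtain ⟨d, hd⟩ := h5 (by omega)
    obtain ⟨a, ha⟩ := (C.M Y).exists_ample
    have haL := (C.M Y).ample_nef_q a ha L S.nef hL0
    have h7 : ((c : ℤ) + d) * C.q L a = C.q L a := by
      have : C.q (u + v) a = C.q L a := by rw [huv]
      rw [C.q_add, hc, hd, q_nsmul C.q_add, q_nsmul C.q_add] at this
      linarith
    have h8 : C.q L a ≠ 0 := by rw [C.q_symm]; exact haL.ne'
    have h9 : ((c : ℤ) + d) = 1 := by
      have : ((c : ℤ) + d - 1) * C.q L a = 0 := by linarith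
      rcases mul_eq_zero.1 this with h | h
      · linarith
      · exact absurd h h8
    rcases Nat.eq_zero_or_pos c with h | h
    · left
      rw [hc, h, zero_smul]
    · right
      have : d = 0 := by omega
      rw [hd, this, zero_smul]
  have hirr := C.prime_div Y L hLNS hL0 hind
  have hno := Pool.Agent.H67.S.no_rel (C.M Y) L s hs hli hirr
  -- powers of the sections
  have hpow : ∀ i, s i ^ d ∈ (C.M Y).Sec (d • L) := by
    intro i
    obtain ⟨k, rfl⟩ : ∃ k, d = k + 1 := ⟨d - 1, by omega⟩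
    clear hd Sd
    induction k with
    | zero => simpa using hs i
    | succ k ih =>
      rw [pow_succ, succ_nsmul]
      exact (C.M Y).sec_mul _ _ _ ih _ (hs i)
  have hdL0 : d • L ≠ 0 := by
    intro h
    obtain ⟨a, ha⟩ := (C.M Y).exists_ample
    have haL := (C.M Y).ample_nef_q a ha L S.nef hL0
    have h1 : C.q (d • L) a = 0 := by rw [h, q_zero C.q_add]
    rw [q_nsmul C.q_add, C.q_symm] at h1
    rcases mul_eq_zero.1 h1 with h2 | h2
    · exact hd.ne' (by exact_mod_cast h2)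
    · exact haL.ne' h2
  have hdLL : C.q (d • L) (d • L) = 0 := by
    rw [q_nsmul C.q_add, C.q_symm, q_nsmul C.q_add, hLL, mul_zero, mul_zero]
  rcases C.sixfold rfl Y (d • L) Sd.nef hdLL Sd.lel (fun i => s i ^ d) hpow
    (fun e G hG hG0 h => hno (d * e) (MvPolynomial.expand d G) (homog_expand hG hd)
      ((MvPolynomial.expand_ne_zero hd).2 hG0) (by rw [MvPolynomial.aeval_expand]; exact h))
    with h | ⟨⟨f⟩⟩
  · exact h
  · exact absurd f.false not_false

/-- The primitive class. -/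
theorem exists_prim (C : SClass n Lam) (X : C.Mem) {L : Lam} (hL : L ∈ (C.M X).Nef) (hL0 : L ≠ 0)
    (hLL : C.q L L = 0) : ∃ (L1 : Lam) (d : ℕ), 0 < d ∧ L = d • L1 ∧ Prim L1 ∧ L1 ≠ 0 ∧
      C.q L1 L1 = 0 := by
  have := C.free
  have := C.finite
  obtain ⟨L1, d, hd, hLd, hprim⟩ := exists_primitive L hL0
  have h0 : L1 ≠ 0 := by
    rintro rfl
    exact hL0 (by rw [hLd, smul_zero])
  have hd' : (d : ℤ) ≠ 0 := by exact_mod_cast hd.ne'
  refine ⟨L1, d, hd, hLd, fun x a b ha hab => ?_, h0, ?_⟩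
  · refine hprim x (d * a) b (mul_ne_zero hd' ha) ?_
    rw [mul_smul, hab, hLd, natCast_zsmul, ← natCast_zsmul L1 d, smul_comm, natCast_zsmul]
  · have h1 := hLL
    rw [hLd, q_nsmul C.q_add, C.q_symm, q_nsmul C.q_add] at h1
    rcases mul_eq_zero.1 h1 with h2 | h2
    · exact absurd h2 hd'
    · rcases mul_eq_zero.1 h2 with h3 | h3
      · exact absurd h3 hd'
      · exact h3

/-- SIXFOLDS. -/
theorem six (C : SClass 3 Lam) (X : C.Mem) : (C.M X).Nef ⊆ (C.M X).Semiample := by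
  intro L hL
  by_cases hL0 : L = 0
  · rw [hL0]
    exact (C.M X).semiample_zero
  rcases lt_or_eq_of_le ((C.M X).nef_q L hL) with h | h
  · exact (C.M X).bpf L hL h
  · have hLL : C.q L L = 0 := h.symm
    obtain ⟨L1, d, hd, hLd, hp, h10, h1L⟩ := exists_prim C X hL hL0 hLL
    obtain ⟨Y, hY, -⟩ := spec C X hL hL0 hLL
    have S : Spec C (Y 0) L := hY 0
    have S1 := S.special_prim hd hLd h10 h1L
    have Sd := S.special hL0 hLL
    rw [hLd] at Sd
    have hsemi := S1.semi h10 h1L hp hd Sd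
    rw [← hLd] at hsemi
    exact C.matsushita X (Y 0) L hL0 hLL hL S.2.1 hsemi

/-- `h^0` of a primitive class. -/
theorem h0_ge (C : SClass n Lam) (X : C.Mem) {L : Lam} (hL : L ∈ (C.M X).Nef) (hL0 : L ≠ 0)
    (hLL : C.q L L = 0) (hn : n = 2 ∨ n = 3) (hprim : ∀ (m : ℕ) (x : Lam), L = m • x → m = 1) :
    n ≤ Module.finrank ℂ ((C.M X).Sec L) := by
  obtain ⟨L1, d, hd, hLd, hp, h10, h1L⟩ := exists_prim C X hL hL0 hLL
  have hd1 := hprim d L1 hLd
  subst hd1
  rw [one_smul] at hLd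
  subst hLd
  obtain ⟨Y, hY, hsemi⟩ := spec C X hL hL0 hLL
  have h1 := hsemi 1 n fun k1 => ⟨k1, le_rfl, by
    rw [one_smul]
    have S : Spec C (Y k1) L := hY k1
    exact (S.special hL0 hLL).n_le hL0 hLL hp hn⟩
  rwa [one_smul] at h1

/-- **MAIN THEOREM.** -/
theorem main : Statement := by
  refine ⟨?_, ?_, ?_⟩
  · rintro n (rfl | rfl) Lam _ C X
    · exact Pool.Agent.H46.P.four (SClass.toPClass C) X
    · exact six C X
  · intro n _ Lam _ C X L hL hLL
    exact Pool.Agent.H46.P.nonvanishing (SClass.toPClass C) X hL hLL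
  · intro n hn Lam _ C X L hL hLL hL0 hprim
    exact h0_ge C X hL hL0 hLL hn hprim

end Pool.Agent.H46.S
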