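import Pool.Agent.H46.S.Cross

/-!
# `h^0(L) ≥ n` for `n = 2, 3`
-/

namespace Pool.Agent.H46.S

open Submodule Pool.Agent.H83.HN Pool.Agent.H83.HP Pool.Agent.H36.HP

variable {n : ℕ} {Lam : Type} [AddCommGroup Lam] {q : Lam → Lam → ℤ} {M : Manifold n Lam q}
  {F : Forms M} {L : Lam}

/-- A space of finite dimension contained in the multiples of each of its non zero elements. -/
theorem finrank_le_one {V : Type} [AddCommGroup V] [Module ℂ V] (S : Submodule ℂ V)
    [Module.Finite ℂ S] (T : V → Submodule ℂ V)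
    (h1 : ∀ P ∈ S, P ≠ 0 → Module.finrank ℂ ↥(S ⊓ T P) = 1)
    (h2 : ∀ P ∈ S, P ≠ 0 → S ≤ T P) : Module.finrank ℂ S ≤ 1 := by
  by_cases hbot : S = ⊥
  · rw [hbot, finrank_bot]
    omega
  obtain ⟨P, hP, hP0⟩ := (Submodule.ne_bot_iff _).1 hbot
  rw [← h1 P hP hP0, inf_eq_left.2 (h2 P hP hP0)]

/-- **THEOREM h3.** -/
theorem n_le_h0 (q_symm : ∀ x y, q x y = q y x) (q_add : ∀ x y z, q (x + y) z = q x z + q y z)
    (D : Multi M F L) (hL : L ∈ M.Nef) (hLL : q L L = 0) (hL0 : L ≠ 0)
    (horth : ∀ P ∈ M.Prime, q P L = 0 → ∃ c : ℤ, P = c • L)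
    (hhoro : ∀ x ∈ M.NS, q x L = 0 → (∀ a ∈ M.Ample, 0 ≤ q x a) → ∃ c : ℤ, x = c • L)
    (hlel : ∀ y, F.lel L y = 0) (hn : n = 2 ∨ n = 3) : n ≤ Module.finrank ℂ (M.Sec L) := by
  classical
  have hLNS := M.nef_NS hL
  obtain ⟨KT, hKT, hwu⟩ : ∃ KT : Submodule D.K (Fin (2 * n) → D.K), KT ≠ ⊤ ∧
      ∀ p k : ℕ, p ≤ 2 * n → 0 < k →
        D.h p (k • L) = Module.finrank ℂ ↥(D.mv p k ⊓ ExtC KT p) := by
    refine ⟨D.KT, D.KT_ne hlel, fun p k hp hk => ?_⟩
    have e : D.par p k = D.mv p k ⊓ ExtC D.KT p := by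
      ext P
      exact D.par_iff hlel p k hk P
    rw [D.wu hlel p k hp hk, e]
  obtain ⟨E, hE, hpar, hmin⟩ := exists_support D KT
  have hEt : E ≠ ⊤ := fun h => hKT (top_le_iff.1 (h ▸ hE))
  have hh : ∀ p k : ℕ, 0 < p → p ≤ 2 * n → 0 < k →
      D.h p (k • L) = Module.finrank ℂ ↥(D.mv p k ⊓ ExtC E p) := by
    intro p k hp hp2 hk
    rw [hwu p k hp2 hk, hpar p k hp hk]
  obtain ⟨r, w, hr, hw, hspan⟩ : ∃ (r : ℕ) (w : Fin r → Fin (2 * n) → D.K),
      r = Module.finrank D.K E ∧ LinearIndependent D.K w ∧ span D.K (Set.range w) = E := by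
    obtain ⟨w, hw, hspan⟩ := exists_basis E
    exact ⟨_, w, rfl, hw, hspan⟩
  have hrV : r < 2 * n := by
    have h1 := Submodule.finrank_lt hEt
    rw [Module.finrank_fin_fun, ← hr] at h1
    exact h1
  -- degrees above `r`
  have hbig : ∀ p : ℕ, r < p → p ≤ 2 * n → D.h p L = 0 := by
    intro p hp hp2
    have h1 := hh p 1 (by omega) hp2 one_pos
    rw [one_smul] at h1
    rw [h1]
    have h2 : ExtC E p = ⊥ := by
      have h3 : Ext E p = ⊥ := Ext_eq_bot E p (by omega)
      rw [ExtC, h3]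
      rfl
    rw [h2, inf_bot_eq, finrank_bot]
  have hh1 : ∀ p : ℕ, 0 < p → p ≤ 2 * n →
      D.h p L = Module.finrank ℂ ↥(D.mv p 1 ⊓ ExtC E p) := by
    intro p hp hp2
    have h1 := hh p 1 hp hp2 one_pos
    rw [one_smul] at h1
    exact h1
  have hrr := D.rr L hLNS hLL
  have hH0 := D.h_zero L hLNS
  rw [← hH0]
  -- the determinant
  have hdet : 0 < r → ∃ t : ℕ, 0 < t ∧ D.cl r (wed w) = -((t : ℤ) • L) ∧ r ≤ n := by
    intro hr0
    have hq0 := D.quotient r w hw (by
      rw [hspan]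
      exact hmin)
    have hst := D.stable r hr0 hrV w hw
    have hq1 := q_nonpos q_symm q_add hL (x := D.cl r (wed w)) fun a ha => (hst a ha).le
    have hq2 : q (D.cl r (wed w)) L = 0 := le_antisymm hq1 hq0
    have hneg : ∀ x z, q (-x) z = - q x z := by
      intro x z
      have := q_zsmul q_add (-1) x z
      rw [neg_one_smul] at this
      rw [this]
      ring
    obtain ⟨c, hc⟩ := hhoro (-D.cl r (wed w)) (M.NS.neg_mem (D.cl_NS r _))
      (by rw [hneg, hq2, neg_zero]) (fun a ha => by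
        rw [hneg]
        have := hst a ha
        omega)
    have hcl : D.cl r (wed w) = -(c • L) := by rw [← hc, neg_neg]
    obtain ⟨a, ha⟩ := M.exists_ample
    have haL := M.ample_nef_q a ha L hL hL0
    have hc0 : 0 < c := by
      have h1 := hst a ha
      rw [hcl, hneg, q_zsmul q_add, q_symm L a] at h1
      by_contra h2
      have : c * q a L ≤ 0 := mul_nonpos_of_nonpos_of_nonneg (not_lt.1 h2) haL.le
      omega
    obtain ⟨t, rfl⟩ : ∃ t : ℕ, c = t := ⟨c.toNat, (Int.toNat_of_nonneg hc0.le).symm⟩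
    refine ⟨t, by exact_mod_cast hc0, hcl, ?_⟩
    -- `r ≤ n`
    by_contra hrn
    push Not at hrn
    have ht0 : 0 < t := by exact_mod_cast hc0
    have h1 := D.kv r t hrn hrV.le ht0
    rw [hh r t hr0 hrV.le ht0] at h1
    have hwE : wed w ∈ Ext E r := wed_mem fun i => by
      rw [← hspan]
      exact subset_span ⟨i, rfl⟩
    have h2 := D.line r (wed w) (Ext_mono le_top r hwE) (wed_ne_zero w hw) t
    rw [hcl, add_neg_cancel, M.sec_zero] at h2
    haveI := D.mv_fin r t
    haveI : Module.Finite ℂ ↥(D.mv r t ⊓ ExtC E r) :=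
      Submodule.finiteDimensional_of_le (S₂ := D.mv r t) inf_le_left
    have h3 : D.mv r t ⊓ LineC (wed w) ≤ D.mv r t ⊓ ExtC E r := by
      refine inf_le_inf_left _ fun Q hQ => ?_
      obtain ⟨f, hf⟩ := Submodule.mem_span_singleton.1 hQ
      change Q ∈ Ext E r
      rw [← hf]
      exact (Ext E r).smul_mem f hwE
    have h4 := Submodule.finrank_mono h3
    omega
  -- bounds for the second cohomology
  have hone : ∀ P ∈ D.mv 2 1, P ∈ ExtC E 2 → P ≠ 0 →
      Module.finrank ℂ ↥(D.mv 2 1 ⊓ LineC P) = 1 := fun P hP hPE hP0 =>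
    line_one q_symm q_add D hL hLL hL0 horth hEt two_pos hP hPE hP0
  have h2le : r ≤ 2 → D.h 2 L ≤ 1 := by
    intro hr2
    rcases Nat.lt_or_ge r 2 with h | h
    · rw [hbig 2 h (by omega)]
      omega
    · have hr2' : r = 2 := le_antisymm hr2 h
      subst hr2'
      rw [hh1 2 two_pos (by omega)]
      haveI := D.mv_fin 2 1
      haveI : Module.Finite ℂ ↥(D.mv 2 1 ⊓ ExtC E 2) :=
        Submodule.finiteDimensional_of_le (S₂ := D.mv 2 1) inf_le_left
      refine finrank_le_one _ (fun P => LineC P) (fun P hP hP0 => ?_) (fun P hP hP0 Q hQ => ?_)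
      · have h3 := hone P hP.1 hP.2 hP0
        have h4 : D.mv 2 1 ⊓ ExtC E 2 ⊓ LineC P = D.mv 2 1 ⊓ LineC P := by
          refine le_antisymm (inf_le_inf_right _ inf_le_left) (le_inf (le_inf inf_le_left ?_) inf_le_right)
          intro Q hQ
          obtain ⟨f, hf⟩ := Submodule.mem_span_singleton.1 hQ.2
          change Q ∈ Ext E 2
          rw [← hf]
          exact (Ext E 2).smul_mem f hP.2
        rw [h4]
        exact h3
      · have h3 : Ext E 2 = span D.K {wed w} := by
          rw [← hspan]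
          exact Ext_span w
        have hP' : P ∈ Ext E 2 := hP.2
        have hQ' : Q ∈ Ext E 2 := hQ.2
        rw [h3] at hP' hQ'
        obtain ⟨f, hf⟩ := Submodule.mem_span_singleton.1 hP'
        obtain ⟨g, hg⟩ := Submodule.mem_span_singleton.1 hQ'
        have hf0 : f ≠ 0 := by
          rintro rfl
          exact hP0 (by rw [← hf, zero_smul])
        change Q ∈ span D.K {P}
        rw [Submodule.mem_span_singleton]
        exact ⟨g * f⁻¹, by rw [← hf, smul_smul, mul_assoc, inv_mul_cancel₀ hf0, mul_one, hg]⟩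
  have h3le : r = 3 → D.h 2 L ≤ 1 + D.h 1 L := by
    intro hr3
    obtain ⟨t, ht0, hcl, hrn⟩ := hdet (by omega)
    subst hr3
    rw [hh1 2 two_pos (by omega)]
    have h4 := cross_bound D w hw t hcl (by
      rw [hspan]
      exact hone)
    rw [hspan] at h4
    rcases Nat.lt_or_ge 1 t with ht | ht
    · have h5 : D.mv 1 (2 - t) ⊓ ExtC E 1 = ⊥ := by
        rw [Submodule.eq_bot_iff]
        rintro P ⟨hP, hPE⟩
        exact mv_nonpos q_symm q_add D hL hLL hL0 horth hEt one_pos (k := 2 - t) (by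
          have : (2 : ℤ) ≤ t := by exact_mod_cast ht
          omega) hP hPE
      rw [h5, finrank_bot] at h4
      omega
    · have ht1 : t = 1 := by omega
      subst ht1
      have h5 : (2 : ℤ) - ((1 : ℕ) : ℤ) = 1 := by norm_num
      rw [h5] at h4
      rw [hh1 1 one_pos (by omega)]
      exact h4
  -- the Euler characteristic
  rcases hn with rfl | rfl
  · have hr2 : r ≤ 2 := by
      rcases Nat.eq_zero_or_pos r with h | h
      · omega
      · obtain ⟨t, -, -, h⟩ := hdet h
        exact h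
    have e2 := h2le hr2
    have e3 := hbig 3 (by omega) (by omega)
    have e4 := hbig 4 (by omega) (by omega)
    simp only [Finset.sum_range_succ, Finset.sum_range_zero, show 2 * 2 + 1 = 5 from rfl] at hrr
    norm_num at hrr
    rw [e3, e4] at hrr
    push_cast at hrr
    omega
  · have hr3 : r ≤ 3 := by
      rcases Nat.eq_zero_or_pos r with h | h
      · omega
      · obtain ⟨t, -, -, h⟩ := hdet h
        exact h
    have e4 := hbig 4 (by omega) (by omega)
    have e5 := hbig 5 (by omega) (by omega)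
    have e6 := hbig 6 (by omega) (by omega)
    have e2 : D.h 2 L ≤ 1 + D.h 1 L := by
      rcases Nat.lt_or_ge r 3 with h | h
      · have := h2le (by omega)
        omega
      · exact h3le (le_antisymm hr3 h)
    simp only [Finset.sum_range_succ, Finset.sum_range_zero, show 2 * 3 + 1 = 7 from rfl] at hrr
    norm_num at hrr
    rw [e4, e5, e6] at hrr
    push_cast at hrr
    omega

end Pool.Agent.H46.S
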